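import Pool.Agent.H906.BD.S.Special

/-! # Entire curves and tori in manifolds covered by `D × ℂ^b`

Let `D ⊆ ℂ^a` be an arbitrary bounded domain and let a group `Δ` act by biholomorphic maps, freely,
properly discontinuously and with compact quotient `X`, on `D × ℂ^b`. We assume that a subgroup of
finite index preserves the splitting of the tangent bundle into `T_D` and the `b` coordinate lines
of `ℂ^b`, and that `X` is Kähler (for instance projective).

We prove: every entire curve `ℂ → X` factors through a holomorphic map from a complex torus of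
dimension `b` to `X`, and through every point of `X` there is a torus `ℂ^b / L → X` which is an
immersion. In particular, if every holomorphic map from a complex torus to `X` is constant, then
`X` is Brody hyperbolic, and both hold if and only if `b = 0`. -/

open Matrix
open scoped ComplexOrder

namespace Pool.Agent.Results.MP_b9fedf_ag.BoundedDomainTimesCbTori

/-- The space `ℂ^a × ℂ^b`. -/
abbrev Pt (a b : ℕ) := Fin a ⊕ Fin b → ℂ

/-- The complex manifold `D × ℂ^b`. -/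
def Dom {a : ℕ} (D : Set (Fin a → ℂ)) (b : ℕ) : Set (Pt a b) := {x | (fun i => x (Sum.inl i)) ∈ D}

/-- `D` is a bounded domain of `ℂ^a`. -/
structure IsBoundedDomain {a : ℕ} (D : Set (Fin a → ℂ)) : Prop where
  isOpen : IsOpen D
  connected : IsConnected D
  bounded : Bornology.IsBounded D

/-- The complex Jacobian matrix `(∂ f_k / ∂ x_i)` of `f`. -/
noncomputable def Jac {a b : ℕ} (f : Pt a b → Pt a b) (x : Pt a b) :
    Matrix (Fin a ⊕ Fin b) (Fin a ⊕ Fin b) ℂ :=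
  Matrix.of fun k i => fderiv ℂ f x (Pi.single i 1) k

/-- The group `Δ` acts on `D × ℂ^b` by holomorphic maps, properly discontinuously and with compact
quotient. -/
structure IsUniform {a b : ℕ} (D : Set (Fin a → ℂ)) {Δ : Type*} [Group Δ]
    (ρ : Δ → Pt a b → Pt a b) : Prop where
  maps : ∀ δ, ∀ x ∈ Dom D b, ρ δ x ∈ Dom D b
  one : ∀ x ∈ Dom D b, ρ 1 x = x
  mul : ∀ δ ε, ∀ x ∈ Dom D b, ρ (δ * ε) x = ρ δ (ρ ε x)
  hol : ∀ δ, DifferentiableOn ℂ (ρ δ) (Dom D b)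
  properlyDiscontinuous : ∀ K ⊆ Dom D b, IsCompact K → {δ : Δ | (ρ δ '' K ∩ K).Nonempty}.Finite
  cocompact : ∃ K ⊆ Dom D b, IsCompact K ∧ ∀ x ∈ Dom D b, ∃ δ, ρ δ x ∈ K

/-- The elements of `Δ0` preserve the subbundle `T_D` of the tangent bundle of `D × ℂ^b` and each
of the `b` coordinate line subbundles of `ℂ^b`: the entries of their Jacobian matrices vanish
outside of the block of `D` and of the diagonal. -/
def PreservesSplitting {a b : ℕ} (D : Set (Fin a → ℂ)) {Δ : Type*} [Group Δ]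
    (ρ : Δ → Pt a b → Pt a b) (Δ0 : Subgroup Δ) : Prop :=
  ∀ δ ∈ Δ0, ∀ x ∈ Dom D b,
    (∀ (j : Fin b) (k : Fin a ⊕ Fin b), k ≠ Sum.inr j → Jac (ρ δ) x k (Sum.inr j) = 0) ∧
    ∀ (i : Fin a) (j : Fin b), Jac (ρ δ) x (Sum.inr j) (Sum.inl i) = 0

/-- The derivative `∂ f / ∂ x_k = (∂ f / ∂ Re x_k - i ∂ f / ∂ Im x_k) / 2`. -/
noncomputable def partialZ {a b : ℕ} (k : Fin a ⊕ Fin b) (f : Pt a b → ℂ) (x : Pt a b) : ℂ :=
  (fderiv ℝ f x (Pi.single k 1) - Complex.I * fderiv ℝ f x (Pi.single k Complex.I)) / 2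

/-- `i ∑ g_{jk} d x_j ∧ d \bar x_k` is a Kähler form on the quotient: the matrix `g` is of class
`C^1` and positive definite, the form is closed and it is invariant under `Δ`. -/
structure IsKahler {a b : ℕ} (D : Set (Fin a → ℂ)) {Δ : Type*} [Group Δ]
    (ρ : Δ → Pt a b → Pt a b)
    (g : Pt a b → Matrix (Fin a ⊕ Fin b) (Fin a ⊕ Fin b) ℂ) : Prop where
  smooth : ∀ i j, ContDiffOn ℝ 1 (fun x => g x i j) (Dom D b)
  pos : ∀ x ∈ Dom D b, (g x).PosDef
  closed : ∀ x ∈ Dom D b, ∀ i j k,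
    partialZ i (fun y => g y j k) x = partialZ j (fun y => g y i k) x
  invariant : ∀ δ, ∀ x ∈ Dom D b,
    (Jac (ρ δ) x)ᵀ * g (ρ δ x) * (Jac (ρ δ) x).map star = g x

/-- `f : ℂ → D × ℂ^b` is holomorphic. Since `ℂ` is simply connected, the holomorphic maps from `ℂ`
to the manifold `X` are the images of these maps. -/
def IsEntire {a b : ℕ} (D : Set (Fin a → ℂ)) (f : ℂ → Pt a b) : Prop :=
  Differentiable ℂ f ∧ ∀ t, f t ∈ Dom D b

/-- `L` is a lattice of `ℂ^g`: discrete and of maximal rank. -/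
structure IsLattice {g : ℕ} (L : AddSubgroup (Fin g → ℂ)) : Prop where
  discrete : ∀ r : ℝ, {v : Fin g → ℂ | v ∈ L ∧ ‖v‖ ≤ r}.Finite
  span : Submodule.span ℝ (L : Set (Fin g → ℂ)) = ⊤

/-- `F` gives a holomorphic map from the complex torus `ℂ^g / L` to `X`. Since `ℂ^g` is simply
connected, all holomorphic maps from `ℂ^g / L` to the manifold `X` are of this form. -/
structure IsTorusMap {a b g : ℕ} (D : Set (Fin a → ℂ)) {Δ : Type*} [Group Δ]
    (ρ : Δ → Pt a b → Pt a b) (L : AddSubgroup (Fin g → ℂ)) (F : (Fin g → ℂ) → Pt a b) :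
    Prop where
  lattice : IsLattice L
  hol : Differentiable ℂ F
  mem : ∀ w, F w ∈ Dom D b
  periodic : ∀ v ∈ L, ∃ δ, ∀ w, F (w + v) = ρ δ (F w)

/-- `X` is Brody hyperbolic: all holomorphic maps from `ℂ` to `X` are constant. -/
def IsBrodyHyperbolic {a b : ℕ} (D : Set (Fin a → ℂ)) : Prop :=
  ∀ f : ℂ → Pt a b, IsEntire D f → ∀ s t, f s = f t

/-- **Entire curves and tori** in compact Kähler quotients `X` of `D × ℂ^b` with virtually split
tangent bundle: every entire curve factors through a torus `ℂ^b / L → X`; through every point of `X`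
there is such a torus, given by an injective map of the coverings; and if every holomorphic map
from a complex torus to `X` is constant, then `X` is Brody hyperbolic. -/
theorem result {a b : ℕ} {D : Set (Fin a → ℂ)} (hD : IsBoundedDomain D) {Δ : Type*} [Group Δ]
    (ρ : Δ → Pt a b → Pt a b) (hρ : IsUniform D ρ) (Δ0 : Subgroup Δ) (hfin : Δ0.FiniteIndex)
    (hsplit : PreservesSplitting D ρ Δ0)
    (g : Pt a b → Matrix (Fin a ⊕ Fin b) (Fin a ⊕ Fin b) ℂ) (hg : IsKahler D ρ g) :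
    (∀ f : ℂ → Pt a b, IsEntire D f → ∃ (L : AddSubgroup (Fin b → ℂ)) (F : (Fin b → ℂ) → Pt a b)
      (h : ℂ → (Fin b → ℂ)), IsTorusMap D ρ L F ∧ Differentiable ℂ h ∧ ∀ t, f t = F (h t)) ∧
    (∀ x ∈ Dom D b, ∃ (L : AddSubgroup (Fin b → ℂ)) (F : (Fin b → ℂ) → Pt a b),
      IsTorusMap D ρ L F ∧ F 0 = x ∧ Function.Injective F) ∧
    ((∀ (k : ℕ) (L : AddSubgroup (Fin k → ℂ)) (F : (Fin k → ℂ) → Pt a b), IsTorusMap D ρ L F →
      ∀ v w, F v = F w) → IsBrodyHyperbolic (b := b) D) := by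
  obtain ⟨R, hR⟩ := hD.bounded.exists_norm_le
  have h1 : H906.BD.HolAct (H906.BD.Tot D (Fin b)) ρ := ⟨hρ.maps, hρ.one, hρ.mul, hρ.hol⟩
  have h2 : H906.BD.Kahler (H906.BD.Tot D (Fin b)) g := ⟨hg.smooth, hg.pos, hg.closed⟩
  have h3 : H906.BD.InvForm (H906.BD.Tot D (Fin b)) ρ g := hg.invariant
  have hs1 : ∀ γ ∈ Δ0, ∀ x ∈ H906.BD.Tot D (Fin b), ∀ j i,
      H906.BD.Jac (ρ γ) x (Sum.inr j) (Sum.inl i) = 0 :=
    fun δ hδ x hx j i => (hsplit δ hδ x hx).2 i j
  have hs2 : ∀ γ ∈ Δ0, ∀ x ∈ H906.BD.Tot D (Fin b), ∀ j j', j ≠ j' →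
      H906.BD.Jac (ρ γ) x (Sum.inr j) (Sum.inr j') = 0 := fun δ hδ x hx j j' hjj =>
    (hsplit δ hδ x hx).1 j' (Sum.inr j) fun h => hjj (Sum.inr_injective h)
  obtain ⟨h4, h5⟩ := H906.BD.S.entire_torus hD.isOpen hD.connected ⟨R, hR⟩ h1
    hρ.properlyDiscontinuous hρ.cocompact hfin hs1 hs2 h2 h3
  have h6 : ∀ {L : AddSubgroup (Fin b → ℂ)} {F : (Fin b → ℂ) → Pt a b},
      H906.BD.S.IsTorusMap (H906.BD.Tot D (Fin b)) ρ L F → IsTorusMap D ρ L F := fun h =>
    ⟨⟨h.lattice.discrete, h.lattice.span⟩, h.hol, h.mem, h.periodic⟩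
  have h7 : ∀ f : ℂ → Pt a b, IsEntire D f → ∃ (L : AddSubgroup (Fin b → ℂ))
      (F : (Fin b → ℂ) → Pt a b) (h : ℂ → (Fin b → ℂ)),
      IsTorusMap D ρ L F ∧ Differentiable ℂ h ∧ ∀ t, f t = F (h t) := fun f hf => by
    obtain ⟨L, F, h, hF, hh, hfF⟩ := h4 f hf
    exact ⟨L, F, h, h6 hF, hh, hfF⟩
  refine ⟨h7, fun x hx => ?_, fun hconst f hf s t => ?_⟩
  · obtain ⟨L, F, hF, hF0, hFi⟩ := h5 x hx
    exact ⟨L, F, h6 hF, hF0, hFi⟩
  · obtain ⟨L, F, h, hF, -, hfF⟩ := h7 f hf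
    rw [hfF s, hfF t]
    exact hconst b L F hF _ _

end Pool.Agent.Results.MP_b9fedf_ag.BoundedDomainTimesCbTori
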