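import Pool.Agent.H441.FT.Maps
import Pool.Agent.H441.UA.Key

/-!
# Entire curves and maps from complex tori: systems of diagonal equations suffice

MP_b9fedf_ag, Q1. We consider the following two types of systems of equations.

* `Diagonal m D`, where `m ≥ 2` is fixed (for example `m = 2`) and `D` is a symmetric set of complex
  numbers which contains `1` and generates the vector space `ℂ` over `ℚ` (for example `D = ℂ`, or the
  set of all complex numbers of absolute value `1`): `Y : ∑ j, c_ij y_j ^ m = 0`, `i < k`, with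
  coefficients in `D ∪ {0}`;
* `FourTerms`: intersections of diagonal quadrics with at most four terms, of the form
  `y_p ^ 2 + y_q ^ 2 = 2 y_s ^ 2 + 2 y_t ^ 2` or `y_p ^ 2 - y_q ^ 2 = a (y_s ^ 2 - y_t ^ 2)` (here `m = 2`).

**Theorem 1.** Let `X` be any projective variety over `ℂ` in `P^n` (any dimension, any singularities) and
`Z` a closed subset. There are a system `Y` of the given type in `P^N`, forms `φ_0, …, φ_N` of the same
degree, among them all monomials of this degree, so that `φ : P^n → P^N` is a closed embedding, and a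
set `J` of indices such that `X = φ⁻¹(Y)`, `Z = φ⁻¹({y_j = 0, j ∈ J})`, and every nonconstant
holomorphic map from `ℂ^g` to `Y`, with any group of periods (for example an entire curve, or a map from
a complex torus) is of the form `(ζ_0 φ_0(x) : … : ζ_N φ_N(x))` with constants `ζ_j ^ m = 1` and a
holomorphic map `x` from `ℂ^g` to `X` with the same periods.

**Theorem 2.** Q1 holds for all projective varieties if and only if it holds for all systems `Y` of
the given type.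

**Theorem 3.** The form of Q1 with exceptional sets (for all closed subsets `Z` of `X`: all nonconstant
entire curves in `X` lie in `Z` if and only if the images of all nonconstant holomorphic maps from
tori to `X` lie in `Z`; i.e. the entire curves and the tori have the same Zariski closure) holds for
all projective varieties `X` if and only if it holds for all systems `Y` of the given type and all
coordinate subspaces `Z = {y_j = 0, j ∈ J}`.

Proof. See `Pool/Agent/H441/UA`, `Pool/Agent/H441/FT`. The `m`-th powers of the coordinates of a point of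
`Y` are the values of a linear functional on the `m`-th powers of many linear forms in the monomials.
On the lines in `ℂ^g` a theorem of Büchi type for meromorphic functions of the library (`pow_Minf`)
shows that the functional is the evaluation at a point of the Veronese image of `X`, so every
point of the image is in one of the copies of `X`; by the identity theorem the copy does not
change.
-/

set_option autoImplicit false

namespace Pool.Agent.Results.MP_b9fedf_ag.DiagonalSystemsSuffice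

open MvPolynomial

/-- systems of equations in `P^N` -/
abbrev Equations (N k : ℕ) : Type := Fin k → MvPolynomial (Fin (N + 1)) ℂ

/-- the systems of diagonal equations `∑ j, c_j * y_j ^ m = 0` with coefficients in `D ∪ {0}` -/
def Diagonal (m : ℕ) (D : Set ℂ) (N k : ℕ) (Y : Equations N k) : Prop :=
  ∀ i, ∃ c : Fin (N + 1) → ℂ, (∀ j, c j = 0 ∨ c j ∈ D) ∧ Y i = ∑ j, C (c j) * X j ^ m

/-- the systems of equations `y_p ^ 2 + y_q ^ 2 = 2 y_s ^ 2 + 2 y_t ^ 2` or
`y_p ^ 2 - y_q ^ 2 = a (y_s ^ 2 - y_t ^ 2)` -/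
def FourTerms (N k : ℕ) (Y : Equations N k) : Prop :=
  ∀ i, ∃ p q s t : Fin (N + 1), Y i = X p ^ 2 + X q ^ 2 - 2 * (X s ^ 2 + X t ^ 2) ∨
    ∃ a : ℂ, Y i = X p ^ 2 - X q ^ 2 - C a * (X s ^ 2 - X t ^ 2)

/-- the vectors of homogeneous coordinates of a nonconstant holomorphic map from `ℂ^g` to `V(S)` with
periods in `L` -/
structure NonconstantMap (g : ℕ) (L : AddSubgroup (Fin g → ℂ)) {n : ℕ}
    (S : Set (MvPolynomial (Fin (n + 1)) ℂ)) (f : (Fin g → ℂ) → Fin (n + 1) → ℂ) : Prop where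
  diff : Differentiable ℂ f
  ne : ∀ z, f z ≠ 0
  mem : ∀ z, ∀ p ∈ S, eval (f z) p = 0
  per : ∀ z, ∀ l ∈ L, ∃ b : ℂ, f (z + l) = b • f z
  nonconst : ∃ z w, ∀ b : ℂ, f w ≠ b • f z

/-- the images of all nonconstant holomorphic maps from complex tori to `V(S)` lie in `V(Z)` -/
def ToriIn {n : ℕ} (S Z : Set (MvPolynomial (Fin (n + 1)) ℂ)) : Prop :=
  ∀ (g : ℕ) (L : AddSubgroup (Fin g → ℂ)), DiscreteTopology L →
    Submodule.span ℝ (L : Set (Fin g → ℂ)) = ⊤ →
    ∀ f : (Fin g → ℂ) → Fin (n + 1) → ℂ, NonconstantMap g L S f → ∀ z, ∀ p ∈ Z, eval (f z) p = 0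

/-- all nonconstant entire curves in `V(S)` lie in `V(Z)` -/
def CurvesIn {n : ℕ} (S Z : Set (MvPolynomial (Fin (n + 1)) ℂ)) : Prop :=
  ∀ f : ℂ → Fin (n + 1) → ℂ, Differentiable ℂ f → (∀ z, f z ≠ 0) →
    (∀ z, ∀ p ∈ S, eval (f z) p = 0) → (∃ z w, ∀ b : ℂ, f w ≠ b • f z) →
    ∀ z, ∀ p ∈ Z, eval (f z) p = 0

/-- Q1 for `V(S)` (the frozen statement S00411 for `V(S)`): if every holomorphic map from every
complex torus to `V(S)` is constant, then every entire curve in `V(S)` is constant. -/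
def Q1 {n : ℕ} (S : Set (MvPolynomial (Fin (n + 1)) ℂ)) : Prop :=
  (∀ (g : ℕ) (L : AddSubgroup (Fin g → ℂ)), DiscreteTopology L →
    Submodule.span ℝ (L : Set (Fin g → ℂ)) = ⊤ →
    ∀ f : (Fin g → ℂ) → Fin (n + 1) → ℂ, Differentiable ℂ f → (∀ z, f z ≠ 0) →
      (∀ z, ∀ p ∈ S, eval (f z) p = 0) → (∀ z, ∀ l ∈ L, ∃ c : ℂ, f (z + l) = c • f z) →
      ∀ z w, ∃ c : ℂ, f w = c • f z) →
  ∀ f : ℂ → Fin (n + 1) → ℂ, Differentiable ℂ f → (∀ z, f z ≠ 0) →
    (∀ z, ∀ p ∈ S, eval (f z) p = 0) → ∀ z w, ∃ c : ℂ, f w = c • f z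

/-- `φ` embeds `V(S)` in `V(Y)`, `V(Z)` is the inverse image of `y_j = 0`, `j ∈ J`, and all nonconstant
holomorphic maps from `ℂ^g` to `V(Y)` come from `V(S)`. -/
structure Embeds (m : ℕ) {n N k : ℕ} (S Z : Set (MvPolynomial (Fin (n + 1)) ℂ))
    (φ : Fin (N + 1) → MvPolynomial (Fin (n + 1)) ℂ) (Y : Equations N k)
    (J : Set (Fin (N + 1))) : Prop where
  mono : ∃ e, 1 ≤ e ∧ (∀ j, (φ j).IsHomogeneous e) ∧
    ∀ α : Fin (n + 1) → ℕ, ∑ i, α i = e → ∃ j, φ j = ∏ i, X i ^ α i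
  points : ∀ x : Fin (n + 1) → ℂ, x ≠ 0 →
    ((∀ p ∈ S, eval x p = 0) ↔ ∀ i, eval (fun j => eval x (φ j)) (Y i) = 0)
  subset : ∀ x : Fin (n + 1) → ℂ, x ≠ 0 →
    ((∀ p ∈ Z, eval x p = 0) ↔ ∀ j ∈ J, eval x (φ j) = 0)
  maps : ∀ (g : ℕ) (L : AddSubgroup (Fin g → ℂ)) (f : (Fin g → ℂ) → Fin (N + 1) → ℂ),
    NonconstantMap g L (Set.range Y) f →
    ∃ (ζ : Fin (N + 1) → ℂ) (x : (Fin g → ℂ) → Fin (n + 1) → ℂ), (∀ j, ζ j ^ m = 1) ∧
      NonconstantMap g L S x ∧ ∀ z j, f z j = ζ j * eval (x z) (φ j)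

/-- the three theorems for the class `𝒴` of systems -/
structure Suffices (m : ℕ) (𝒴 : ∀ N k : ℕ, Equations N k → Prop) : Prop where
  theorem1 : ∀ (n : ℕ) (S Z : Set (MvPolynomial (Fin (n + 1)) ℂ)),
    (∀ p ∈ S, ∃ e, p.IsHomogeneous e) → (∀ p ∈ Z, ∃ e, p.IsHomogeneous e) →
    ∃ (N k : ℕ) (Y : Equations N k) (φ : Fin (N + 1) → MvPolynomial (Fin (n + 1)) ℂ)
      (J : Set (Fin (N + 1))), 𝒴 N k Y ∧ Embeds m S Z φ Y J
  theorem2 : (∀ (n : ℕ) (S : Set (MvPolynomial (Fin (n + 1)) ℂ)),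
      (∀ p ∈ S, ∃ e, p.IsHomogeneous e) → Q1 S) ↔
    ∀ (N k : ℕ) (Y : Equations N k), 𝒴 N k Y → Q1 (Set.range Y)
  theorem3 : (∀ (n : ℕ) (S Z : Set (MvPolynomial (Fin (n + 1)) ℂ)),
      (∀ p ∈ S, ∃ e, p.IsHomogeneous e) → (∀ p ∈ Z, ∃ e, p.IsHomogeneous e) →
      (CurvesIn S Z ↔ ToriIn S Z)) ↔
    ∀ (N k : ℕ) (Y : Equations N k) (J : Set (Fin (N + 1))), 𝒴 N k Y →
      (CurvesIn (Set.range Y) (X '' J) ↔ ToriIn (Set.range Y) (X '' J))

section proof

open Pool.Agent.N254.SQ (reduce eval₂_scale)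
open Pool.Agent.H441.UA (FEmb vals exists_femb)
open Pool.Agent.H441.DQ (dform dform_hom)
open Pool.Agent.H441.FT (maps_lift maps_to maps_of vals_smul vals_diff' exists_four dform_row row
  dform_add dform_smul dform_single coord)

variable {n : ℕ}

theorem eval_eq {M : ℕ} (p : MvPolynomial (Fin (M + 1)) ℂ) (x : Fin (M + 1) → ℂ) :
    eval₂ (RingHom.id ℂ) x p = eval x p := rfl

/-- equations with the same zeros -/
theorem exists_fin (S : Set (MvPolynomial (Fin (n + 1)) ℂ)) :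
    ∃ T : Finset (MvPolynomial (Fin (n + 1)) ℂ), (T : Set _) ⊆ S ∧
      ∀ x : Fin (n + 1) → ℂ, (∀ p : T, eval x (p : MvPolynomial (Fin (n + 1)) ℂ) = 0) ↔
        ∀ p ∈ S, eval x p = 0 := by
  obtain ⟨T, hT, hTS⟩ := reduce S
  refine ⟨T, hT, fun x => ⟨fun hx p hp => ?_, fun hx p => hx p (hT p.2)⟩⟩
  have h1 := hTS ℂ (RingHom.id ℂ) x (fun p hp => by
    rw [map_id]
    exact hx ⟨p, hp⟩) p hp
  rwa [map_id] at h1

/-- the embedding in the form needed here -/
theorem embeds_of {m N k : ℕ} (hm : m ≠ 0) {S Z : Set (MvPolynomial (Fin (n + 1)) ℂ)}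
    {T T' : Finset (MvPolynomial (Fin (n + 1)) ℂ)}
    (hT : ∀ x : Fin (n + 1) → ℂ, (∀ p : T, eval x (p : MvPolynomial (Fin (n + 1)) ℂ) = 0) ↔
        ∀ p ∈ S, eval x p = 0)
    (hT' : ∀ x : Fin (n + 1) → ℂ, (∀ p : T', eval x (p : MvPolynomial (Fin (n + 1)) ℂ) = 0) ↔
        ∀ p ∈ Z, eval x p = 0)
    {φ : Fin (N + 1) → MvPolynomial (Fin (n + 1)) ℂ} {c : Fin k → Fin (N + 1) → ℂ}
    {I J : Set (Fin (N + 1))}
    (hE : FEmb m (fun p : T => (p : MvPolynomial (Fin (n + 1)) ℂ)) (fun e : Empty => e.elim)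
      (fun p : T' => (p : MvPolynomial (Fin (n + 1)) ℂ)) φ c I J) :
    Embeds m S Z φ (fun i => dform m (c i)) J := by
  refine ⟨hE.mono, fun x hx => ?_, fun x hx => ?_, fun g L f hf => ?_⟩
  · rw [← hT]
    exact hE.pts ℂ (RingHom.id ℂ) x hx
  · rw [← hT']
    exact (hE.onG ℂ (RingHom.id ℂ) x hx).symm
  · obtain ⟨ζ, x, hζ, hxd, hx0, hxF, hfx⟩ := maps_lift hm hE (RingHom.id ℂ) hf.diff hf.ne
      (fun z i => hf.mem z _ ⟨i, rfl⟩) hf.nonconst
    have hζ0 : ∀ j, ζ j ≠ 0 := by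
      intro j h0
      have := hζ j
      rw [h0, zero_pow hm] at this
      exact zero_ne_one this
    obtain ⟨e, hsm⟩ := vals_smul hE
    refine ⟨ζ, x, hζ, ⟨hxd, hx0, fun z => (hT (x z)).1 (hxF z), fun z l hl => ?_, ?_⟩, hfx⟩
    · obtain ⟨b, hb⟩ := hf.per z l hl
      refine hE.inj ℂ (RingHom.id ℂ) _ _ b (hx0 _) (funext fun j => ?_)
      have h2 := congrFun hb j
      rw [Pi.smul_apply, smul_eq_mul, hfx, hfx] at h2
      rw [Pi.smul_apply, smul_eq_mul]
      apply mul_left_cancel₀ (hζ0 j)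
      linear_combination h2
    · obtain ⟨z₀, w₀, hnc⟩ := hf.nonconst
      exact ⟨z₀, w₀, fun b hb => hnc (b ^ e) (funext fun j => by
        rw [hfx, hb, hsm, Pi.smul_apply, Pi.smul_apply, smul_eq_mul, smul_eq_mul, hfx]
        ring)⟩

/-- the complex tori -/
theorem tori_iff {ι γ : Type} {F : ι → MvPolynomial (Fin (n + 1)) ℂ}
    {G : γ → MvPolynomial (Fin (n + 1)) ℂ} {S Z : Set (MvPolynomial (Fin (n + 1)) ℂ)}
    (hS : ∀ x : Fin (n + 1) → ℂ, (∀ i, eval x (F i) = 0) ↔ ∀ p ∈ S, eval x p = 0)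
    (hZ : ∀ x : Fin (n + 1) → ℂ, (∀ i, eval x (G i) = 0) ↔ ∀ p ∈ Z, eval x p = 0) :
    ToriIn S Z ↔ ∀ (g : ℕ) (L : AddSubgroup (Fin g → ℂ)), DiscreteTopology L →
      Submodule.span ℝ (L : Set (Fin g → ℂ)) = ⊤ →
        Pool.Agent.H441.FT.MapsIn (Fin g → ℂ) (L : Set (Fin g → ℂ)) (RingHom.id ℂ) F G := by
  constructor
  · intro h g L h1 h2 f hf hf0 hfF hper hnc z
    exact (hZ (f z)).2 (h g L h1 h2 f ⟨hf, hf0, fun z => (hS (f z)).1 (hfF z), hper, hnc⟩ z)
  · intro h g L h1 h2 f hf z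
    exact (hZ (f z)).1 (h g L h1 h2 f hf.diff hf.ne (fun z => (hS (f z)).2 (hf.mem z)) hf.per
      hf.nonconst z)

/-- the entire curves -/
theorem curves_iff {ι γ : Type} {F : ι → MvPolynomial (Fin (n + 1)) ℂ}
    {G : γ → MvPolynomial (Fin (n + 1)) ℂ} {S Z : Set (MvPolynomial (Fin (n + 1)) ℂ)}
    (hS : ∀ x : Fin (n + 1) → ℂ, (∀ i, eval x (F i) = 0) ↔ ∀ p ∈ S, eval x p = 0)
    (hZ : ∀ x : Fin (n + 1) → ℂ, (∀ i, eval x (G i) = 0) ↔ ∀ p ∈ Z, eval x p = 0) :
    CurvesIn S Z ↔ Pool.Agent.H441.FT.MapsIn ℂ ∅ (RingHom.id ℂ) F G := by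
  constructor
  · intro h f hf hf0 hfF _ hnc z
    exact (hZ (f z)).2 (h f hf hf0 (fun z => (hS (f z)).1 (hfF z)) hnc z)
  · intro h f hf hf0 hfS hnc z
    exact (hZ (f z)).1 (h f hf hf0 (fun z => (hS (f z)).2 (hfS z))
      (fun z l hl => absurd hl (Set.notMem_empty l)) hnc z)

theorem q1_iff (S : Set (MvPolynomial (Fin (n + 1)) ℂ)) :
    Q1 S ↔ (ToriIn S {1} → CurvesIn S {1}) := by
  constructor
  · intro h ht f hf hf0 hfS ⟨z₀, w₀, hnc⟩
    exfalso
    obtain ⟨b, hb⟩ := h (fun g L h1 h2 f hf hf0 hfS hper z w => by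
      by_contra hcon
      push Not at hcon
      have := ht g L h1 h2 f ⟨hf, hf0, hfS, hper, z, w, hcon⟩ 0 1 rfl
      rw [map_one] at this
      exact one_ne_zero this) f hf hf0 hfS z₀ w₀
    exact hnc b hb
  · intro h ht f hf hf0 hfS z w
    by_contra hcon
    push Not at hcon
    have := h (fun g L h1 h2 f hf => by
      exfalso
      obtain ⟨z, w, hnc⟩ := hf.nonconst
      obtain ⟨b, hb⟩ := ht g L h1 h2 f hf.diff hf.ne hf.mem hf.per z w
      exact hnc b hb) f hf hf0 hfS ⟨z, w, hcon⟩ 0 1 rfl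
    rw [map_one] at this
    exact one_ne_zero this

theorem suffices_of {m : ℕ} (hm : m ≠ 0) (𝒴 : ∀ N k : ℕ, Equations N k → Prop)
    (hhom : ∀ (N k : ℕ) (Y : Equations N k), 𝒴 N k Y → ∀ i, ∃ e, (Y i).IsHomogeneous e)
    (hex : ∀ (n : ℕ) (T T' : Finset (MvPolynomial (Fin (n + 1)) ℂ)),
      (∀ p ∈ T, ∃ e, p.IsHomogeneous e) → (∀ p ∈ T', ∃ e, p.IsHomogeneous e) →
      ∃ (N k : ℕ) (φ : Fin (N + 1) → MvPolynomial (Fin (n + 1)) ℂ) (c : Fin k → Fin (N + 1) → ℂ)
        (I J : Set (Fin (N + 1))), 𝒴 N k (fun i => dform m (c i)) ∧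
        FEmb m (fun p : T => (p : MvPolynomial (Fin (n + 1)) ℂ)) (fun e : Empty => e.elim)
          (fun p : T' => (p : MvPolynomial (Fin (n + 1)) ℂ)) φ c I J) : Suffices m 𝒴 := by
  classical
  have hrange : ∀ {N k : ℕ} (Y : Equations N k) (x : Fin (N + 1) → ℂ),
      (∀ i, eval x (Y i) = 0) ↔ ∀ p ∈ Set.range Y, eval x p = 0 := by
    intro N k Y x
    simp
  have hone : ∀ {N : ℕ} (x : Fin (N + 1) → ℂ),
      (∀ i : Unit, eval x ((fun _ : Unit => (1 : MvPolynomial (Fin (N + 1)) ℂ)) i) = 0) ↔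
        ∀ p ∈ ({1} : Set (MvPolynomial (Fin (N + 1)) ℂ)), eval x p = 0 := by
    intro N x
    simp
  have hcoord : ∀ {N : ℕ} (J : Set (Fin (N + 1))) (x : Fin (N + 1) → ℂ),
      (∀ i : J, eval x (coord ℂ J i) = 0) ↔
        ∀ p ∈ ((X : Fin (N + 1) → MvPolynomial (Fin (N + 1)) ℂ) '' J), eval x p = 0 := by
    intro N J x
    simp [coord]
  have hset : ∀ {N : ℕ} (T : Finset (MvPolynomial (Fin (N + 1)) ℂ)) (x : Fin (N + 1) → ℂ),
      (∀ p : T, eval x (p : MvPolynomial (Fin (N + 1)) ℂ) = 0) ↔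
        ∀ p ∈ (T : Set (MvPolynomial (Fin (N + 1)) ℂ)), eval x p = 0 := by
    intro N T x
    simp
  -- the transfer
  have htr : ∀ (n : ℕ) (S Z : Set (MvPolynomial (Fin (n + 1)) ℂ)),
      (∀ p ∈ S, ∃ e, p.IsHomogeneous e) → (∀ p ∈ Z, ∃ e, p.IsHomogeneous e) →
      ∃ (N k : ℕ) (Y : Equations N k) (J : Set (Fin (N + 1))), 𝒴 N k Y ∧
        (CurvesIn (Set.range Y) (X '' J) ↔ CurvesIn S Z) ∧
        (ToriIn (Set.range Y) (X '' J) ↔ ToriIn S Z) := by
    intro n S Z hS hZ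
    obtain ⟨T, hT, hTS⟩ := exists_fin S
    obtain ⟨T', hT', hTZ⟩ := exists_fin Z
    obtain ⟨N, k, φ, c, I, J, hY, hE⟩ := hex n T T' (fun p hp => hS p (hT hp))
      fun p hp => hZ p (hT' hp)
    refine ⟨N, k, _, J, hY, ?_, ?_⟩
    · rw [curves_iff (hrange _) (hcoord J), curves_iff hTS hTZ]
      exact ⟨maps_of hE _, maps_to hm hE _⟩
    · rw [tori_iff (hrange _) (hcoord J), tori_iff hTS hTZ]
      exact ⟨fun h g L h1 h2 => maps_of hE _ (h g L h1 h2),
        fun h g L h1 h2 => maps_to hm hE _ (h g L h1 h2)⟩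
  -- the case without exceptional sets
  have htr1 : ∀ (n : ℕ) (S : Set (MvPolynomial (Fin (n + 1)) ℂ)),
      (∀ p ∈ S, ∃ e, p.IsHomogeneous e) →
      ∃ (N k : ℕ) (Y : Equations N k), 𝒴 N k Y ∧
        (CurvesIn (Set.range Y) {1} → CurvesIn S {1}) ∧
        (ToriIn S {1} → ToriIn (Set.range Y) {1}) := by
    intro n S hS
    obtain ⟨T, hT, hTS⟩ := exists_fin S
    obtain ⟨N, k, φ, c, I, J, hY, hE⟩ := hex n T {1} (fun p hp => hS p (hT hp)) (by
      intro p hp
      rw [Finset.mem_singleton] at hp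
      rw [hp]
      exact ⟨0, isHomogeneous_one _ _⟩)
    refine ⟨N, k, _, hY, fun h => ?_, fun h => ?_⟩
    · have h1 : CurvesIn (Set.range fun i => dform m (c i)) (X '' J) := by
        intro f hf hf0 hfS hnc z
        exfalso
        have := h f hf hf0 hfS hnc z 1 rfl
        rw [map_one] at this
        exact one_ne_zero this
      rw [curves_iff (hrange _) (hcoord J)] at h1
      have h2 := maps_of hE _ h1
      have hTZ : ∀ x : Fin (n + 1) → ℂ, (∀ p : ({1} : Finset (MvPolynomial (Fin (n + 1)) ℂ)),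
          eval x (p : MvPolynomial (Fin (n + 1)) ℂ) = 0) ↔
          ∀ p ∈ ({1} : Set (MvPolynomial (Fin (n + 1)) ℂ)), eval x p = 0 := by
        intro x
        simp
      rw [curves_iff hTS hTZ]
      exact h2
    · intro g L h1 h2 f hf
      exfalso
      have hemb : Embeds m S ({1} : Set (MvPolynomial (Fin (n + 1)) ℂ)) φ
          (fun i => dform m (c i)) J := embeds_of hm hTS (fun x => by simp) hE
      obtain ⟨ζ, x, hζ, hx, hfx⟩ := hemb.maps g L f hf
      have := h g L h1 h2 x hx 0 1 rfl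
      rw [map_one] at this
      exact one_ne_zero this
  refine ⟨?_, ⟨?_, ?_⟩, ⟨?_, ?_⟩⟩
  · intro n S Z hS hZ
    obtain ⟨T, hT, hTS⟩ := exists_fin S
    obtain ⟨T', hT', hTZ⟩ := exists_fin Z
    obtain ⟨N, k, φ, c, I, J, hY, hE⟩ := hex n T T' (fun p hp => hS p (hT hp))
      fun p hp => hZ p (hT' hp)
    exact ⟨N, k, _, φ, J, hY, embeds_of hm hTS hTZ hE⟩
  · intro h N k Y hY
    refine h N _ ?_
    rintro _ ⟨i, rfl⟩
    exact hhom N k Y hY i
  · intro h n S hS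
    rw [q1_iff]
    obtain ⟨N, k, Y, hY, h1, h2⟩ := htr1 n S hS
    have h3 := h N k Y hY
    rw [q1_iff] at h3
    exact fun h4 => h1 (h3 (h2 h4))
  · intro h N k Y J hY
    refine h N _ _ ?_ ?_
    · rintro _ ⟨i, rfl⟩
      exact hhom N k Y hY i
    · rintro _ ⟨j, -, rfl⟩
      exact ⟨1, isHomogeneous_X _ _⟩
  · intro h n S Z hS hZ
    obtain ⟨N, k, Y, J, hY, h1, h2⟩ := htr n S Z hS hZ
    rw [← h1, ← h2]
    exact h N k Y J hY

end proof

theorem result :
    (∀ m : ℕ, 2 ≤ m → ∀ D : Set ℂ, 1 ∈ D → (∀ x ∈ D, -x ∈ D) → Submodule.span ℚ D = ⊤ →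
      Suffices m (Diagonal m D)) ∧
    Suffices 2 FourTerms := by
  classical
  constructor
  · intro m hm D hD1 hD2 hD3
    refine suffices_of (by omega) _ ?_ ?_
    · intro N k Y hY i
      obtain ⟨c, -, hc⟩ := hY i
      rw [hc]
      exact ⟨m, Pool.Agent.H441.DQ.dform_hom c⟩
    · intro n T T' hT hT'
      obtain ⟨N, k, φ, c, I, J, hcD, hE⟩ := Pool.Agent.H441.UA.exists_femb D hD1 hD2 hD3 hm
        (fun p : T => (p : MvPolynomial (Fin (n + 1)) ℂ)) (fun e : Empty => e.elim)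
        (fun p : T' => (p : MvPolynomial (Fin (n + 1)) ℂ)) (fun p => hT p p.2) (fun e => e.elim)
        (fun p => hT' p p.2)
      exact ⟨N, k, φ, c, I, J, fun i => ⟨c i, hcD i, rfl⟩, hE⟩
  · refine suffices_of two_ne_zero _ ?_ ?_
    · intro N k Y hY i
      refine ⟨2, ?_⟩
      have h1 := fun j : Fin (N + 1) => (isHomogeneous_X ℂ j).pow 2
      have h2 := fun (a : ℂ) (P : MvPolynomial (Fin (N + 1)) ℂ) (hP : P.IsHomogeneous (1 * 2)) =>
        (isHomogeneous_C (Fin (N + 1)) a).mul hP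
      obtain ⟨p, q, s, t, hi | ⟨a, hi⟩⟩ := hY i
      · rw [hi]
        exact ((h1 p).add (h1 q)).sub (h2 2 _ ((h1 s).add (h1 t)))
      · rw [hi]
        exact ((h1 p).sub (h1 q)).sub (h2 a _ ((h1 s).sub (h1 t)))
    · intro n T T' hT hT'
      obtain ⟨N, k, φ, c, I, J, hc, hE, -⟩ := Pool.Agent.H441.FT.exists_four
        (fun p : T => (p : MvPolynomial (Fin (n + 1)) ℂ)) (fun e : Empty => e.elim)
        (fun p : T' => (p : MvPolynomial (Fin (n + 1)) ℂ)) (fun p => hT p p.2) (fun e => e.elim)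
        (fun p => hT' p p.2)
      refine ⟨N, k, φ, c, I, J, fun i => ?_, hE⟩
      obtain ⟨p, p', q, q', h⟩ := hc i
      rcases h with h | ⟨x, h⟩
      · refine ⟨p, p', q, q', Or.inl ?_⟩
        simp only
        rw [h, Pool.Agent.H441.FT.dform_row]
      · refine ⟨p, p', q, q', Or.inr ⟨x, ?_⟩⟩
        have e1 : c i = Pi.single p 1 + (-1 : ℂ) • Pi.single p' 1 +
            (-x) • (Pi.single q 1 + (-1 : ℂ) • Pi.single q' 1) := by
          rw [h, neg_one_smul, neg_one_smul, neg_smul, sub_eq_add_neg, sub_eq_add_neg,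
            sub_eq_add_neg]
        simp only
        rw [e1]
        simp only [Pool.Agent.H441.FT.dform_add, Pool.Agent.H441.FT.dform_smul,
          Pool.Agent.H441.FT.dform_single, C_neg, C_1]
        ring

end Pool.Agent.Results.MP_b9fedf_ag.DiagonalSystemsSuffice
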