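import Mathlib
import Pool.Agent.H917.G.W1

/-!
MP_b9fedf_ag, Q1: entire curves and maps from abelian varieties for projective varieties such that
some symmetric power of the cotangent bundle is generated by global sections.
-/

set_option autoImplicit false

namespace Pool.Agent.Results.MP_b9fedf_ag.GenPowersAbelianDense

open MvPolynomial Metric Set Pool.Agent.H917

/-- Let `X` be the projective variety with the homogeneous ideal `p`, such that the `m`-th symmetric
power of the cotangent sheaf of `X` is generated by global sections, for some `m ≥ 1`. Let `V` be a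
closed algebraic subset of `X` (such as `X` itself), with the homogeneous ideal `q`, and `f` a
nonconstant holomorphic map from the complex plane to `V`. Then the images of the nonconstant
holomorphic maps `θ` from abelian varieties to `V` whose image is contained in the Zariski closure
`Z` of `f (ℂ)` are Zariski dense in `Z`: for every form `G` which does not vanish on `f (ℂ)` there is
such a map `θ` with `G` not vanishing on its image. In particular, if every holomorphic map from an
abelian variety to `V` is constant, then `V` is Brody hyperbolic. -/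
theorem result {n : ℕ} (p : Ideal (MvPolynomial (Fin (n + 1)) ℂ)) {m : ℕ} (hm : 1 ≤ m)
    (hg : Generated p m) (q : Ideal (MvPolynomial (Fin (n + 1)) ℂ))
    (hq : ∀ H ∈ q, ∀ d, homogeneousComponent d H ∈ q) (hpq : p ≤ q)
    (f : ℂ → Fin (n + 1) → ℂ) (hf : EntCurve q f) (G : MvPolynomial (Fin (n + 1)) ℂ)
    (hG : ∃ d, G.IsHomogeneous d) (hGf : ∃ z, eval (f z) G ≠ 0) :
    ∃ (g : ℕ) (Λ : AddSubgroup (Fin g → ℂ)) (θ : (Fin g → ℂ) → Fin (n + 1) → ℂ), AbMap q g Λ θ ∧
      (∀ H : MvPolynomial (Fin (n + 1)) ℂ, (∃ d, H.IsHomogeneous d) → (∀ z, eval (f z) H = 0) →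
        ∀ z, eval (θ z) H = 0) ∧ ∃ z, eval (θ z) G ≠ 0 := by
  obtain ⟨N, s, hs⟩ := hg
  have hs' : Gens p m s := ⟨hs⟩
  exact ab_dense_of_curve hq (hs'.res hpq) hm hf hG hGf

end Pool.Agent.Results.MP_b9fedf_ag.GenPowersAbelianDense
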