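import Pool.Agent.H910.Gg.Tor

/-!
# Entire curves and maps from abelian varieties: varieties whose subvarieties have nonconstant maps

Let `X` be a complex projective variety, of arbitrary dimension and with arbitrary singularities, with
the function field `K` and the generic point `x` (homogeneous coordinates in `K`; `coords ℂ x = ⊤`
says that their ratios generate `K`). A rational map `y` from `X` to the space `P^(n + 1)` of the binary
forms of degree `n + 1`, with image not contained in the discriminant hypersurface, is *ramified*
(`RamP`) if there are distinct numbers `a i` and weights `μ i ≤ M`, `c i` and `cD` with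
`(n + 1) (∑ c i + 2 n cD) + 2 M < ∑ μ i`, such that at all places of the points of `X` (with
coordinates in a field extension of `ℂ`, outside of a proper closed subset) the orders of contact `s i`
of the image with the hyperplanes of the forms which vanish at `(1 : a i)` and `t` with the
discriminant hypersurface satisfy one of the following conditions: `t = 0` and each `s i` is zero or at
least `M / (M - μ i)`; or `∑ c i s i + cD t ≥ M`.

`TorusClass x`: each closed subvariety `V` of dimension at least two of `X` (a) has a nonconstant
ramified map, or (b) has a nonconstant dominant rational map to a pseudo-Brody hyperbolic variety, or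
(c) contains a closed curve of geometric genus at most one. There is no assumption on the Kodaira
dimension of `V` or on the dimension of the fibres.

**Theorem.** (I) The question has a positive answer for all `X` of this class, of any dimension: the
Zariski closure of each nonconstant entire curve in `X` contains a closed curve of geometric genus at
most one (`ClosureHasLow`), and the following are equivalent: `X` is Brody hyperbolic; `X` is Kobayashi
hyperbolic; every map from an elliptic curve to `X` is constant; there are no closed curves of
geometric genus at most one in `X`. So, if every morphism from an abelian variety to `X` is constant,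
then `X` is Brody hyperbolic.

(II) A projective surface, of any Kodaira dimension, with a nonconstant ramified map, or a nonconstant
rational map to a pseudo-Brody hyperbolic variety, belongs to the class.

(III) Targets for (b): `X` is pseudo-Brody hyperbolic if it has a generically finite ramified map
(`OneMap`); or if it is of general type and has finitely many ramified maps and dominant rational maps
to pseudo-Brody hyperbolic varieties, such that the dimension of the image in the product is at least
`dim X - 1` (`Fibred`).

(IV) If each closed subvariety `V` of dimension at least two of `X` is as in (III), of general type, and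
if there are degree bounds for curves in the varieties to which the `V` are mapped (`MapClass True`;
for instance if there are only ramified maps), then moreover: the closed curves of geometric genus at
most one in `X` are finite in number; each of them is the image of an elliptic curve; the Zariski
closure of each nonconstant entire curve, and of the image of each nonconstant meromorphic map
`ℂ^g → X`, for instance of each holomorphic map from a complex torus to `X`, is one of them
(`CurveSets2`).

`TorusClass`, `HasMap`, `ClosureHasLow` : `Pool/Agent/H910/Gg/Tdf.lean`; `MapClass`, `Fibred`, `OneMap`,
`PBrody` : `Pool/Agent/H910/Gg/Defs.lean`; `CurveSets2` : `Pool/Agent/H910/Cf/Bdf.lean`; `EntireCurve`,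
`PseudoBrody` : `Pool/Graph/R_seed8/Y221/BD/Defs.lean`; `KobayashiHyp`, `BrodyHyp`, `NoElliptic` :
`Pool/Graph/R_pool_sql_team_seeded_3997aac3/Q103/SF/Defs2.lean`; `lowCurves` :
`Pool/Graph/R_pool_sql_team_seeded_3997aac3/Q103/SF/Defs.lean`; `SubOf` :
`Pool/Graph/R_seed8/TH466/QG/Strong.lean`; `RamP` : `Pool/Agent/H910/Cf/Cdf.lean`; `Ram` :
`Pool/Agent/H910/Cf/Defs.lean`.
-/

set_option autoImplicit false
set_option linter.overlappingInstances false

open Pool.Agent.H910.Cf Pool.Agent.H910.Gg
open Pool.Agent.W602.GT (coords)
open Pool.Agent.Y221.BD (PseudoBrody)
open Pool.Agent.Q103.SF (lowCurves KobayashiHyp BrodyHyp NoElliptic)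

namespace Pool.Agent.Results.MP_b9fedf_ag.NonconstantMaps

/-- **Entire curves and maps from abelian varieties.** See the explanation at the beginning of the
file. -/
theorem result (M : ℕ) (K : Type) [Field K] [Algebra ℂ K] (x : Fin (M + 1) → K) (hx : x ≠ 0)
    (hgen : coords ℂ x = ⊤) :
    (TorusClass x → ClosureHasLow x ∧
      List.TFAE [BrodyHyp x, KobayashiHyp x, NoElliptic x, lowCurves x = ∅]) ∧
    (Algebra.trdeg ℂ K = (2 : ℕ) → HasMap x → TorusClass x) ∧
    (OneMap x → PseudoBrody x) ∧
    (∀ b, Fibred b x → PBrody b x) ∧
    (MapClass True x → CurveSets2 x) := by
  refine ⟨fun h => ⟨h.closure, ?_⟩, fun htr h => h.surface hx hgen htr, fun h => h.pb hx hgen,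
    fun b h => h.pbrody hx hgen, fun h => h.sets2 hx hgen⟩
  have h1 := h.closure.tfae
  tfae_have 1 ↔ 2 := h1.out 1 0
  tfae_have 1 ↔ 3 := h1.out 1 2
  tfae_have 1 ↔ 4 := h1.out 1 3
  tfae_finish

end Pool.Agent.Results.MP_b9fedf_ag.NonconstantMaps
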